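import Pool.Agent.X216.MZ.Edges
import Pool.Agent.X216.MZ.Bad

/-!
# Pairwise compatibility does not imply compatibility for monotonic zeros

Three even real polynomials of degree `10`, each with monotonic zeros in the closed first
quadrant, which are pairwise compatible but not compatible.
-/

open Finset

namespace Pool.Agent.Results.MP_c4a6c0_an.PairwiseNotEnough

open Pool.Agent.X216.MZ

/-- The closed first quadrant `Q`. -/
def Quadrant : Set ℂ := {z | 0 ≤ z.re ∧ 0 ≤ z.im}

/-- `f` is real: it takes real values on the real line. -/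
def IsRealFun (f : ℂ → ℂ) : Prop := ∀ x : ℝ, (f x).im = 0

/-- `f` is even. -/
def IsEvenFun (f : ℂ → ℂ) : Prop := ∀ z, f (-z) = f z

/-- `F` is not identically zero, no two distinct zeros of `F` in `Q` have the same real part, and
for zeros `α, β ∈ Q` with `Re α < Re β` one has `Im α ≤ Im β`. -/
def MonotonicZeros (F : ℂ → ℂ) : Prop :=
  (∃ z, F z ≠ 0) ∧ ∀ α ∈ Quadrant, ∀ β ∈ Quadrant, F α = 0 → F β = 0 → α ≠ β →
    α.re ≠ β.re ∧ (α.re < β.re → α.im ≤ β.im)

/-- The combination `∑ c_j f_j`. -/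
noncomputable def comb {k : ℕ} (c : Fin k → ℝ) (f : Fin k → ℂ → ℂ) (z : ℂ) : ℂ :=
  ∑ j, (c j : ℂ) * f j z

/-- The family `f` is compatible: every combination with coefficients `c_j ≥ 0` which is not
identically zero has monotonic zeros in `Q`. -/
def Compatible {k : ℕ} (f : Fin k → ℂ → ℂ) : Prop :=
  ∀ c : Fin k → ℝ, (∀ j, 0 ≤ c j) → (∃ z, comb c f z ≠ 0) → MonotonicZeros (comb c f)

/-- The family is pairwise compatible: `{f_i, f_j}` is compatible for `i < j`. -/
def PairwiseCompatible {k : ℕ} (f : Fin k → ℂ → ℂ) : Prop :=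
  ∀ i j : Fin k, i < j → Compatible ![f i, f j]

/-- The first polynomial. -/
noncomputable def F1 (z : ℂ) : ℂ := z ^ 10 + 6 * z ^ 6 - 6 * z ^ 4 + 7 * z ^ 2

/-- The second polynomial. -/
noncomputable def F2 (z : ℂ) : ℂ := z ^ 10 + 2 * z ^ 8 + 14 * z ^ 6 + 14 * z ^ 4 + 39 * z ^ 2

/-- The third polynomial. -/
noncomputable def F3 (z : ℂ) : ℂ :=
  z ^ 10 + 3 * z ^ 8 + 22 * z ^ 6 - 69 * z ^ 4 + 99 * z ^ 2 - 31

lemma mono_of_scale {F G : ℂ → ℂ} {s : ℝ} (hs : s ≠ 0) (h : ∀ z, F z = s * G z) (hG : Mono G)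
    (hne : ∃ z, F z ≠ 0) : MonotonicZeros F := by
  refine ⟨hne, ?_⟩
  have hs' : (s : ℂ) ≠ 0 := by exact_mod_cast hs
  have hz : ∀ z, F z = 0 → G z = 0 := by
    intro z hz
    rw [h] at hz
    exact (mul_eq_zero.1 hz).resolve_left hs'
  intro α hα β hβ hFα hFβ hab
  exact hG α hα β hβ (hz α hFα) (hz β hFβ) hab

lemma not_mono_of_scale {F G : ℂ → ℂ} {s : ℝ} (h : ∀ z, F z = s * G z) (hG : ¬ Mono G) :
    ¬ MonotonicZeros F := by
  rintro ⟨_, hF⟩
  apply hG
  intro α hα β hβ hGα hGβ hab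
  exact hF α hα β hβ (by rw [h, hGα, mul_zero]) (by rw [h, hGβ, mul_zero]) hab

lemma pair_case {f g : ℂ → ℂ} {E : ℝ → ℂ → ℂ}
    (h : ∀ (s t : ℝ) (z : ℂ), (s * (1 - t) : ℂ) * f z + (s * t : ℂ) * g z = s * E t z)
    (hM : ∀ t, 0 ≤ t → t ≤ 1 → Mono (E t)) : Compatible ![f, g] := by
  intro c hc hne
  have ha := hc 0
  have hb := hc 1
  have hcomb : ∀ z, comb c ![f, g] z = (c 0 : ℂ) * f z + (c 1 : ℂ) * g z := by
    intro z; simp [comb, Fin.sum_univ_two]
  have hs : 0 < c 0 + c 1 := by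
    rcases eq_or_lt_of_le (add_nonneg ha hb) with h0 | h0
    · exfalso
      have h1 : c 0 = 0 := by linarith
      have h2 : c 1 = 0 := by linarith
      obtain ⟨z, hz⟩ := hne
      apply hz
      rw [hcomb, h1, h2]
      simp
    · exact h0
  obtain ⟨s, hs'⟩ : ∃ s : ℝ, s = c 0 + c 1 := ⟨_, rfl⟩
  obtain ⟨t, ht⟩ : ∃ t : ℝ, t = c 1 / s := ⟨_, rfl⟩
  have hs0 : 0 < s := by rw [hs']; exact hs
  have h1 : c 1 = s * t := by rw [ht]; field_simp
  have h0 : c 0 = s * (1 - t) := by
    have : s * (1 - t) = s - s * t := by ring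
    rw [this, ← h1, hs']; ring
  have ht0 : 0 ≤ t := by rw [ht]; positivity
  have ht1 : t ≤ 1 := by
    rw [ht, div_le_one hs0, hs']; linarith
  apply mono_of_scale (s := s) hs0.ne' _ (hM t ht0 ht1) hne
  intro z
  rw [hcomb, h0, h1, ← h]
  push_cast
  ring

lemma compat12 : Compatible ![F1, F2] := by
  apply pair_case (E := fun t z => P 0 (7 + 32 * t) (-6 + 20 * t) (6 + 8 * t) (2 * t) (z ^ 2))
  · intro s t z
    simp only [F1, F2, P]
    push_cast
    ring
  · intro t h0 h1
    exact edge12 h0 h1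

lemma compat13 : Compatible ![F1, F3] := by
  apply pair_case
    (E := fun t z => P (-31 * t) (7 + 92 * t) (-6 - 63 * t) (6 + 16 * t) (3 * t) (z ^ 2))
  · intro s t z
    simp only [F1, F3, P]
    push_cast
    ring
  · intro t h0 h1
    exact edge13 h0 h1

lemma compat23 : Compatible ![F2, F3] := by
  apply pair_case
    (E := fun t z => P (-31 * t) (39 + 60 * t) (14 - 83 * t) (14 + 8 * t) (2 + t) (z ^ 2))
  · intro s t z
    simp only [F2, F3, P]
    push_cast
    ring
  · intro t h0 h1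
    exact edge23 h0 h1

lemma of_pair_left {f g : ℂ → ℂ} (h : Compatible ![f, g]) (hne : ∃ z, f z ≠ 0) :
    MonotonicZeros f := by
  have e : comb ![1, 0] ![f, g] = f := by
    funext z; simp [comb, Fin.sum_univ_two]
  have := h ![1, 0] (by intro j; fin_cases j <;> simp) (by rw [e]; exact hne)
  rwa [e] at this

lemma of_pair_right {f g : ℂ → ℂ} (h : Compatible ![f, g]) (hne : ∃ z, g z ≠ 0) :
    MonotonicZeros g := by
  have e : comb ![0, 1] ![f, g] = g := by
    funext z; simp [comb, Fin.sum_univ_two]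
  have := h ![0, 1] (by intro j; fin_cases j <;> simp) (by rw [e]; exact hne)
  rwa [e] at this

theorem result : ∃ f : Fin 3 → ℂ → ℂ,
    (∀ j, Differentiable ℂ (f j) ∧ IsEvenFun (f j) ∧ IsRealFun (f j) ∧ MonotonicZeros (f j)) ∧
    PairwiseCompatible f ∧ ¬ Compatible f := by
  have r1 : IsRealFun F1 := by
    intro x
    have : F1 x = ((x ^ 10 + 6 * x ^ 6 - 6 * x ^ 4 + 7 * x ^ 2 : ℝ) : ℂ) := by
      unfold F1; push_cast; ring
    rw [this, Complex.ofReal_im]
  have r2 : IsRealFun F2 := by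
    intro x
    have : F2 x = ((x ^ 10 + 2 * x ^ 8 + 14 * x ^ 6 + 14 * x ^ 4 + 39 * x ^ 2 : ℝ) : ℂ) := by
      unfold F2; push_cast; ring
    rw [this, Complex.ofReal_im]
  have r3 : IsRealFun F3 := by
    intro x
    have : F3 x =
      ((x ^ 10 + 3 * x ^ 8 + 22 * x ^ 6 - 69 * x ^ 4 + 99 * x ^ 2 - 31 : ℝ) : ℂ) := by
      unfold F3; push_cast; ring
    rw [this, Complex.ofReal_im]
  refine ⟨![F1, F2, F3], ?_, ?_, ?_⟩
  · intro j
    fin_cases j
    · refine ⟨?_, ?_, r1, of_pair_left compat12 ⟨1, by norm_num [F1]⟩⟩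
      · change Differentiable ℂ F1
        unfold F1; fun_prop
      · intro z
        change F1 (-z) = F1 z
        unfold F1; ring
    · refine ⟨?_, ?_, r2, of_pair_right compat12 ⟨1, by norm_num [F2]⟩⟩
      · change Differentiable ℂ F2
        unfold F2; fun_prop
      · intro z
        change F2 (-z) = F2 z
        unfold F2; ring
    · refine ⟨?_, ?_, r3, of_pair_right compat13 ⟨1, by norm_num [F3]⟩⟩
      · change Differentiable ℂ F3
        unfold F3; fun_prop
      · intro z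
        change F3 (-z) = F3 z
        unfold F3; ring
  · intro i j hij
    fin_cases i <;> fin_cases j
    · exact absurd hij (by decide)
    · exact compat12
    · exact compat13
    · exact absurd hij (by decide)
    · exact absurd hij (by decide)
    · exact compat23
    · exact absurd hij (by decide)
    · exact absurd hij (by decide)
    · exact absurd hij (by decide)
  · intro h
    have hcomb : ∀ z, comb ![5, 2, 1] ![F1, F2, F3] z =
        ((8 : ℝ) : ℂ) * P (-31 / 8) (212 / 8) (-71 / 8) 10 (7 / 8) (z ^ 2) := by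
      intro z
      rw [comb, Fin.sum_univ_three]
      change ((5 : ℝ) : ℂ) * F1 z + ((2 : ℝ) : ℂ) * F2 z + ((1 : ℝ) : ℂ) * F3 z = _
      simp only [F1, F2, F3, P]
      push_cast
      ring
    have hne : ∃ z, comb ![5, 2, 1] ![F1, F2, F3] z ≠ 0 := by
      refine ⟨0, ?_⟩
      rw [hcomb]
      unfold P
      norm_num
    have := h ![5, 2, 1] (by intro j; fin_cases j <;> simp) hne
    exact not_mono_of_scale hcomb bad_comb this

end Pool.Agent.Results.MP_c4a6c0_an.PairwiseNotEnough
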